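import Pool.Agent.Helper88.Ric.Stmts

/-! Topology of the chart domains, finiteness of the index set. -/

set_option autoImplicit false

open scoped ContDiff Manifold Topology MatrixGroups LinearAlgebra.Projectivization
open Complex

noncomputable section

namespace RicP

lemma TOP_finite_QN (M : ModData) (N : ℕ) (hN0 : N ≠ 0) : Finite (QN M N) := by
  have : NeZero N := ⟨hN0⟩
  have h1 : Set.Finite {ζ : ℂˣ | ζ ^ 4 = 1} := by
    have : NeZero (4 : ℕ) := ⟨by norm_num⟩
    have hf : Finite (rootsOfUnity 4 ℂ) := inferInstance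
    have hf' : Set.Finite ((rootsOfUnity 4 ℂ : Subgroup ℂˣ) : Set ℂˣ) := hf
    refine hf'.subset (fun ζ hζ => ?_)
    rw [SetLike.mem_coe, _root_.mem_rootsOfUnity]
    exact hζ
  have h2 : Set.Finite ((Set.univ : Set (SL(2, ZMod N))) ×ˢ {ζ : ℂˣ | ζ ^ 4 = 1}) :=
    (Set.toFinite _).prod h1
  refine (h2.subset ?_ : Set.Finite (((hN M N).range : Subgroup (SL(2, ZMod N) × ℂˣ)) :
    Set (SL(2, ZMod N) × ℂˣ))).to_subtype
  rintro _ ⟨γ, rfl⟩
  refine ⟨Set.mem_univ _, ?_⟩
  exact M.χ_pow γ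

lemma TOP_UH_convex (N : ℕ) : Convex ℝ (UH N) := by
  have h1 : Convex ℝ {x : E | 4 / 5 < x.1.im} :=
    convex_halfSpace_gt (f := fun x : E => x.1.im)
      ⟨fun x y => by simp, fun c x => by simp⟩ _
  have h2 : Convex ℝ {x : E | 4 * Real.pi * x.1.im / N < 37 / 20} :=
    convex_halfSpace_lt (f := fun x : E => 4 * Real.pi * x.1.im / N)
      ⟨fun x y => by simp; ring, fun c x => by simp; ring⟩ _
  exact h1.inter h2

lemma TOP_UD_star : StarConvex ℝ 0 UD := by
  rw [starConvex_zero_iff]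
  intro p hp a ha0 ha1
  obtain ⟨h1, h2, h3⟩ := hp
  have key : ∀ z : ℂ, ∀ c : ℝ, ‖z‖ < c → ‖(a : ℂ) * z‖ < c := by
    intro z c hz
    rw [norm_mul, Complex.norm_real, Real.norm_eq_abs, abs_of_nonneg ha0]
    have := norm_nonneg z
    nlinarith
  refine ⟨?_, ?_, ?_⟩
  · simpa using key _ _ h1
  · simpa using key _ _ h2
  · have h4 := key _ _ (key _ _ h3)
    have h5 : (a • p).1 * (a • p).2 = (a : ℂ) * ((a : ℂ) * (p.1 * p.2)) := by
      simp only [Prod.smul_fst, Prod.smul_snd, Complex.real_smul]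
      ring
    rw [h5]
    exact h4

lemma TOP_KH_compact (N : ℕ) (hN0 : 0 < N) : IsCompact (KH N) := by
  have hN0' : (0 : ℝ) < N := by exact_mod_cast hN0
  let A : Set ℂ := {τ | |τ.re| ≤ 1 / 2 ∧ 17 / 20 ≤ τ.im ∧ 4 * Real.pi * τ.im / N ≤ 46 / 25}
  have hA : IsCompact A := by
    refine Metric.isCompact_of_isClosed_isBounded ?_ ?_
    · have c1 : Continuous (fun τ : ℂ => |τ.re|) := by fun_prop
      have c2 : Continuous (fun τ : ℂ => τ.im) := by fun_prop
      have c3 : Continuous (fun τ : ℂ => 4 * Real.pi * τ.im / N) := by fun_prop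
      exact (isClosed_le c1 continuous_const).inter ((isClosed_le continuous_const c2).inter
        (isClosed_le c3 continuous_const))
    · refine (Metric.isBounded_iff_subset_closedBall 0).2 ⟨1 / 2 + N, fun τ hτ => ?_⟩
      obtain ⟨h1, h2, h3⟩ := hτ
      rw [mem_closedBall_zero_iff]
      refine (Complex.norm_le_abs_re_add_abs_im τ).trans (add_le_add h1 ?_)
      rw [abs_of_nonneg (by linarith)]
      rw [div_le_iff₀ hN0'] at h3
      have := Real.pi_gt_three
      nlinarith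
  have hcomp : IsCompact (A ×ˢ (Set.Icc (0 : ℝ) 1 ×ˢ Set.Icc (0 : ℝ) 1)) :=
    hA.prod (isCompact_Icc.prod isCompact_Icc)
  have hcont : Continuous (fun p : ℂ × (ℝ × ℝ) => ((p.1, (p.2.1 : ℂ) * p.1 + (p.2.2 : ℂ)) : E)) := by
    fun_prop
  have : KH N = (fun p : ℂ × (ℝ × ℝ) => ((p.1, (p.2.1 : ℂ) * p.1 + (p.2.2 : ℂ)) : E)) ''
      (A ×ˢ (Set.Icc (0 : ℝ) 1 ×ˢ Set.Icc (0 : ℝ) 1)) := by
    ext x
    constructor
    · rintro ⟨h1, h2, h3, α, β, h4, h5, h6, h7, h8⟩
      exact ⟨(x.1, (α, β)), ⟨⟨h1, h2, h3⟩, ⟨h4, h5⟩, ⟨h6, h7⟩⟩, Prod.ext rfl h8.symm⟩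
    · rintro ⟨⟨τ, α, β⟩, ⟨⟨h1, h2, h3⟩, ⟨h4, h5⟩, ⟨h6, h7⟩⟩, rfl⟩
      exact ⟨h1, h2, h3, α, β, h4, h5, h6, h7, rfl⟩
  rw [this]
  exact hcomp.image hcont

lemma TOP_KD_compact : IsCompact KD := by
  refine Metric.isCompact_of_isClosed_isBounded ?_ ?_
  · have c1 : Continuous (fun p : E => ‖p.1‖) := by fun_prop
    have c2 : Continuous (fun p : E => ‖p.2‖) := by fun_prop
    have c3 : Continuous (fun p : E => ‖p.1 * p.2‖) := by fun_prop
    exact (isClosed_le c1 continuous_const).inter ((isClosed_le c2 continuous_const).inter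
      (isClosed_le c3 continuous_const))
  · refine (Metric.isBounded_iff_subset_closedBall 0).2 ⟨1, fun p hp => ?_⟩
    rw [mem_closedBall_zero_iff, Prod.norm_def]
    exact max_le hp.1 hp.2.1

theorem st_TOP : ST_TOP := by
  intro M N hN
  obtain ⟨h4, h8⟩ := hN
  have hN0 : N ≠ 0 := by omega
  have hN8 : (8 : ℝ) ≤ N := by exact_mod_cast h8
  have : NeZero N := ⟨hN0⟩
  have := TOP_finite_QN M N hN0
  have hpi := Real.pi_gt_three
  have hpi' := Real.pi_lt_d2
  refine ⟨inferInstance, ⟨Sum.inl 1⟩, ?_, ?_, ⟨⟨(Complex.I, 0), ?_⟩,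
    (TOP_UH_convex N).isPreconnected⟩, ?_, TOP_KH_compact N (Nat.pos_of_ne_zero hN0),
    TOP_KD_compact, ?_, ?_⟩
  · have c2 : Continuous (fun x : E => x.1.im) := by fun_prop
    have c3 : Continuous (fun x : E => 4 * Real.pi * x.1.im / N) := by fun_prop
    exact (isOpen_lt continuous_const c2).inter (isOpen_lt c3 continuous_const)
  · have c1 : Continuous (fun p : E => ‖p.1‖) := by fun_prop
    have c2 : Continuous (fun p : E => ‖p.2‖) := by fun_prop
    have c3 : Continuous (fun p : E => ‖p.1 * p.2‖) := by fun_prop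
    exact (isOpen_lt c1 continuous_const).inter ((isOpen_lt c2 continuous_const).inter
      (isOpen_lt c3 continuous_const))
  · constructor
    · simp only [Complex.I_im]; norm_num
    · simp only [Complex.I_im]
      rw [div_lt_iff₀ (by linarith)]
      nlinarith
  · have h0 : (0 : E) ∈ UD := by
      refine ⟨?_, ?_, ?_⟩ <;> norm_num
    exact (TOP_UD_star.isPathConnected h0).isConnected
  · rintro x ⟨h1, h2, h3, -⟩
    exact ⟨by linarith, by linarith⟩
  · rintro x ⟨h1, h2, h3⟩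
    exact ⟨by linarith, by linarith, by linarith⟩

end RicP
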